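import Mathlib
import Pool.Agent.W665.HAP.Defs
import Pool.Agent.W665.HAP.Fin

/-!
# The Haagerup property does not pass to C*-subalgebras

There are a unital C*-algebra `A` with a faithful tracial state `τ` such that `(A, τ)` has the
Haagerup property, and a norm closed `*`-subalgebra `B` of `A` such that `(B, τ|B)` does not have
the Haagerup property.

Construction.  Let `F` be the free group on two generators and `H 0 ≥ H 1 ≥ ...` normal subgroups of
finite index such that the shortest non-trivial element of `H (n+1)` is much longer than the
logarithm of the index of `H n`.  Then `A` is the commutant on `ℓ²(F) ⊕ ⨁ ℓ²(F / H n)` of the left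
translations and of the projections onto the summands (so `A` is the product of the von Neumann
algebra of `F` and of the group algebras of the finite quotients), `τ` is a weighted sum of the
canonical traces, and `B` is the closure of the set of those `T` in `A` which agree with one fixed
element of the group algebra of `F` in the infinite block and in all but finitely many finite
blocks.  Schur multipliers with the kernels `κ^{|x⁻¹y|}` of Haagerup in the infinite block, and a
cut-off in the finite blocks, show that `(A, τ)` has the Haagerup property.  In `B` the block `n` of
`Φ(z ρ(g)) ρ(g)*` is split according to the three parts `z` (blocks below `n`, block `n`, the rest);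
the middle part is small by compactness, and the moments of the simple random walk of the free group
bound the two other parts by `0.9` of their value at the identity, which contradicts
`Φ(ρ(s)) ≈ ρ(s)`.
-/

set_option autoImplicit false

open scoped CStarAlgebra ComplexOrder
open Pool.Agent.W665.HAP

namespace Pool.Agent.Results.MP_9dda70_an.HaagerupNotHereditary

/-- A C*-algebra `A` with a faithful tracial state `τ` having the Haagerup property, and a
C*-algebra `B` embedded by an injective `*`-homomorphism `j` as a norm closed `*`-subalgebra of `A`,
such that `B` with the restricted trace `σ = τ ∘ j` does not have the Haagerup property. -/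
theorem result : ∃ (A : Type) (_ : CStarAlgebra A) (_ : PartialOrder A) (_ : StarOrderedRing A)
    (B : Type) (_ : CStarAlgebra B) (_ : PartialOrder B) (_ : StarOrderedRing B)
    (τ : A →ₚ[ℂ] ℂ) (σ : B →ₚ[ℂ] ℂ) (j : B →⋆ₐ[ℂ] A),
    IsFaithfulTracialState τ ∧ Function.Injective j ∧ IsClosed (Set.range j) ∧
      (∀ b : B, σ b = τ (j b)) ∧ HaagerupProperty τ ∧ ¬ HaagerupProperty σ :=
  main

end Pool.Agent.Results.MP_9dda70_an.HaagerupNotHereditary
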